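import Pool.Agent.H29.FX.Targets

/-!
# (FNC) few exponents outside a small set of primes (MP_7ecdd4_nt)
-/

set_option autoImplicit false

open Finset

namespace Pool.Agent.H17.TFX

open Pool.Agent.H38.AE.Statement
open Pool.Agent.H29.FX

theorem fnc_grow (A c : ℝ) (hc : 0 < c) : ∃ Y₁ : ℝ, 2 ≤ Y₁ ∧ ∀ Y : ℝ, Y₁ ≤ Y →
    Y ^ A ≤ Real.exp (Y ^ c) := by
  have h := (isLittleO_log_rpow_atTop hc).bound (show (0 : ℝ) < 1 / (|A| + 1) by positivity)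
  obtain ⟨Y₁, hY₁⟩ := Filter.eventually_atTop.1 h
  refine ⟨max Y₁ 2, le_max_right _ _, fun Y hY => ?_⟩
  have hY2 : 2 ≤ Y := (le_max_right _ _).trans hY
  have hY0 : 0 < Y := by linarith
  have h1 := hY₁ Y ((le_max_left _ _).trans hY)
  have hlog : 0 ≤ Real.log Y := Real.log_nonneg (by linarith)
  rw [Real.norm_of_nonneg hlog, Real.norm_of_nonneg (by positivity)] at h1
  rw [Real.rpow_def_of_pos hY0]
  apply Real.exp_le_exp.2
  have hA := abs_nonneg A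
  calc Real.log Y * A ≤ Real.log Y * (|A| + 1) :=
        mul_le_mul_of_nonneg_left ((le_abs_self A).trans (by linarith)) hlog
    _ ≤ (1 / (|A| + 1) * Y ^ c) * (|A| + 1) := mul_le_mul_of_nonneg_right h1 (by linarith)
    _ = Y ^ c := by field_simp

open scoped Classical in
/-- the integers up to `Z` composed of primes dividing `Q` -/
noncomputable def SQ (Z : ℝ) (Q : ℕ) : Finset ℕ :=
  (Icc 1 ⌊Z⌋₊).filter fun m => ∀ p : ℕ, p.Prime → p ∣ m → p ∣ Q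

theorem mem_SQ {Z : ℝ} {Q m : ℕ} : m ∈ SQ Z Q ↔ (1 ≤ m ∧ m ≤ ⌊Z⌋₊) ∧
    ∀ p : ℕ, p.Prime → p ∣ m → p ∣ Q := by
  classical
  unfold SQ
  rw [mem_filter, mem_Icc]

/-- the same with signs -/
noncomputable def TQ (Z : ℝ) (Q : ℕ) : Finset ℤ :=
  (SQ Z Q).image (fun m : ℕ => (m : ℤ)) ∪ (SQ Z Q).image (fun m : ℕ => -(m : ℤ))

/-- the triples -/
noncomputable def UQ (Z : ℝ) (Q : ℕ) : Finset (Fin 3 → ℤ) := Fintype.piFinset fun _ => TQ Z Q

theorem mem_TQ {Z : ℝ} {Q : ℕ} {a : ℤ} (h0 : a ≠ 0) (h1 : (|a| : ℤ) ≤ Z)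
    (h2 : ∀ p : ℕ, p.Prime → (p : ℤ) ∣ a → p ∣ Q) : a ∈ TQ Z Q := by
  have hS : a.natAbs ∈ SQ Z Q := by
    rw [mem_SQ]
    refine ⟨⟨Int.natAbs_pos.2 h0, Nat.le_floor ?_⟩, fun p hp hpa => h2 p hp ?_⟩
    · rw [Nat.cast_natAbs]
      exact h1
    · exact Int.natCast_dvd.2 hpa
  unfold TQ
  rw [mem_union, mem_image, mem_image]
  rcases Int.natAbs_eq a with h | h
  · exact Or.inl ⟨_, hS, h.symm⟩
  · exact Or.inr ⟨_, hS, h.symm⟩

theorem card_UQ {Z K : ℝ} {Q : ℕ} (h : ((SQ Z Q).card : ℝ) ≤ K) :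
    ((UQ Z Q).card : ℝ) ≤ 8 * K ^ 3 := by
  have h1 : (TQ Z Q).card ≤ 2 * (SQ Z Q).card := by
    unfold TQ
    refine (card_union_le _ _).trans ?_
    have a1 := card_image_le (s := SQ Z Q) (f := fun m : ℕ => (m : ℤ))
    have a2 := card_image_le (s := SQ Z Q) (f := fun m : ℕ => -(m : ℤ))
    omega
  have h2 : ((TQ Z Q).card : ℝ) ≤ 2 * K := by
    have : ((TQ Z Q).card : ℝ) ≤ ((2 * (SQ Z Q).card : ℕ) : ℝ) := by exact_mod_cast h1
    push_cast at this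
    linarith
  unfold UQ
  rw [Fintype.card_piFinset, prod_const, card_univ, Fintype.card_fin]
  push_cast
  calc ((TQ Z Q).card : ℝ) ^ 3 ≤ (2 * K) ^ 3 := pow_le_pow_left₀ (Nat.cast_nonneg _) h2 3
    _ = 8 * K ^ 3 := by ring

/-- a box -/
theorem fnc_box (k : ℕ) (M R Y H : ℝ) (N : ℕ) (hN : H ≤ N) :
    (FewExponents k M R Y H).Finite ∧
      ((FewExponents k M R Y H).ncard : ℝ) ≤ (2 * (N : ℝ) + 1) ^ 3 := by
  have hsub : FewExponents k M R Y H ⊆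
      ((Fintype.piFinset fun _ : Fin 3 => Icc (-(N : ℤ)) N : Finset (Fin 3 → ℤ)) :
        Set (Fin 3 → ℤ)) := by
    rintro x ⟨_, _, _, hx, _⟩
    rw [mem_coe, Fintype.mem_piFinset]
    intro i
    rw [mem_Icc, ← abs_le]
    have h1 : ((|x i| : ℤ) : ℝ) ≤ ((N : ℤ) : ℝ) := by
      rw [Int.cast_abs]
      push_cast
      exact (hx i).trans hN
    exact_mod_cast h1
  refine ⟨(finite_toSet _).subset hsub, ?_⟩
  have h1 := Set.ncard_le_ncard hsub (finite_toSet _)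
  rw [Set.ncard_coe_finset, Fintype.card_piFinset, prod_const, card_univ, Fintype.card_fin,
    Int.card_Icc] at h1
  have h2 : ((N : ℤ) + 1 - -(N : ℤ)).toNat = 2 * N + 1 := by omega
  rw [h2] at h1
  exact_mod_cast h1

/-- (FNC) few exponents outside a small set of primes. -/
theorem pf_FNC (hFNA : T_FNA) (hRPR : T_RPR) (hSUN : T_SUN) : T_FNC := by
  classical
  intro k η hη
  obtain ⟨M, c, C₁, hM, hc, hC₁, hFNA⟩ := hFNA k (η / 2) (by linarith)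
  refine ⟨M, hM, fun A => ?_⟩
  obtain ⟨Y₁, hY₁2, hY₁⟩ := fnc_grow A c hc
  obtain ⟨B, hB⟩ : ∃ B : ℝ, B = |A| + η + 1 := ⟨_, rfl⟩
  have hA0 := abs_nonneg A
  have hB0 : 0 < B := by rw [hB]; linarith
  have hAB : A ≤ B := by rw [hB]; linarith [le_abs_self A]
  obtain ⟨C₂, hC₂, hSUN⟩ := hSUN (η / (24 * B)) (by positivity)
  obtain ⟨N, hN⟩ : ∃ N : ℕ, N = ⌈Y₁ ^ |A|⌉₊ := ⟨_, rfl⟩
  refine ⟨(2 * (N : ℝ) + 1) ^ 3 + 8 * C₂ ^ 3 * C₁, by positivity, fun Y hY => ?_⟩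
  have hY0 : 0 < Y := by linarith
  have hY1 : 1 ≤ Y := by linarith
  have hYη : 1 ≤ Y ^ η := Real.one_le_rpow hY1 hη.le
  refine ⟨(fnc_box k M (Y ^ (η / 4)) Y (Y ^ A) ⌈Y ^ A⌉₊ (Nat.le_ceil _)).1, ?_⟩
  by_cases hlt : Y < Y₁
  · have h1 : Y ^ A ≤ N := by
      rw [hN]
      refine le_trans ?_ (Nat.le_ceil _)
      calc Y ^ A ≤ Y ^ |A| := Real.rpow_le_rpow_of_exponent_le hY1 (le_abs_self A)
        _ ≤ Y₁ ^ |A| := Real.rpow_le_rpow hY0.le hlt.le hA0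
    refine (fnc_box k M (Y ^ (η / 4)) Y (Y ^ A) N h1).2.trans ?_
    have h2 : 0 ≤ (2 * (N : ℝ) + 1) ^ 3 := by positivity
    have h3 : 0 ≤ 8 * C₂ ^ 3 * C₁ := by positivity
    nlinarith [mul_nonneg h2 (sub_nonneg.2 hYη), mul_nonneg h3 (by linarith : (0 : ℝ) ≤ Y ^ η)]
  · have hle : Y₁ ≤ Y := not_lt.1 hlt
    have hexp := hY₁ Y hle
    obtain ⟨Z, hZ⟩ : ∃ Z : ℝ, Z = Y ^ B := ⟨_, rfl⟩
    have hZ1 : 1 ≤ Z := by rw [hZ]; exact Real.one_le_rpow hY1 hB0.le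
    have hZε : Z ^ (η / (24 * B)) = Y ^ (η / 24) := by
      rw [hZ, ← Real.rpow_mul hY0.le]
      congr 1
      field_simp
    obtain ⟨R, hR⟩ : ∃ R : ℕ, R = ⌊Y ^ (η / 4)⌋₊ := ⟨_, rfl⟩
    have hRle : (R : ℝ) ≤ Y ^ (η / 4) := by rw [hR]; exact Nat.floor_le (by positivity)
    have hYZ : Y ^ (η / 4) ≤ Z := by
      rw [hZ]
      exact Real.rpow_le_rpow_of_exponent_le hY1 (by rw [hB]; linarith)
    obtain ⟨U, hU⟩ : ∃ U : Finset (Fin 3 → ℤ), U = (Icc 1 R).biUnion (UQ Z) := ⟨_, rfl⟩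
    have hSQ : ∀ Q ∈ Icc 1 R, ((SQ Z Q).card : ℝ) ≤ C₂ * Y ^ (η / 24) := by
      intro Q hQ
      rw [mem_Icc] at hQ
      have hQR : (Q : ℝ) ≤ R := by exact_mod_cast hQ.2
      have := hSUN Z Q hZ1 hQ.1 ((hQR.trans hRle).trans hYZ) (SQ Z Q) (by
        intro m hm
        rw [mem_SQ] at hm
        refine ⟨hm.1.1, ?_, hm.2⟩
        exact (Nat.cast_le.2 hm.1.2).trans (Nat.floor_le (by linarith)))
      rwa [hZε] at this
    have hUc : (U.card : ℝ) ≤ Y ^ (η / 4) * (8 * (C₂ * Y ^ (η / 24)) ^ 3) := by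
      have h1 : (U.card : ℝ) ≤ ∑ Q ∈ Icc 1 R, ((UQ Z Q).card : ℝ) := by
        rw [hU]
        exact_mod_cast card_biUnion_le
      refine h1.trans ((sum_le_card_nsmul _ _ _ fun Q hQ => card_UQ (hSQ Q hQ)).trans ?_)
      rw [nsmul_eq_mul, Nat.card_Icc, Nat.add_sub_cancel]
      exact mul_le_mul_of_nonneg_right hRle (by positivity)
    have hfin : ∀ u : Fin 3 → ℤ, (OfPowers k u M Y (Real.exp (Y ^ c))).Finite :=
      fun u => (hFNA Y u hY).1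
    obtain ⟨G, hG⟩ : ∃ G : Finset (Fin 3 → ℤ), G = U.biUnion fun u => (hfin u).toFinset :=
      ⟨_, rfl⟩
    have hsub : FewExponents k M (Y ^ (η / 4)) Y (Y ^ A) ⊆ (G : Set (Fin 3 → ℤ)) := by
      rintro x ⟨hadm, hrad, hbig, hsml, Q, hQ1, hQR, hcard⟩
      obtain ⟨u, hu, hpow⟩ := hRPR k Q Y x hadm hQ1 hrad hcard
      rw [mem_coe, hG, mem_biUnion]
      refine ⟨u, ?_, ?_⟩
      · rw [hU, mem_biUnion]
        refine ⟨Q, ?_, ?_⟩
        · rw [mem_Icc, hR]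
          exact ⟨hQ1, Nat.le_floor hQR⟩
        · unfold UQ
          rw [Fintype.mem_piFinset]
          intro i
          obtain ⟨h0, h1, h2⟩ := hu i
          refine mem_TQ h0 ?_ h2
          have h3 : ((|u i| : ℤ) : ℝ) ≤ ((|x i| : ℤ) : ℝ) := by exact_mod_cast h1
          refine h3.trans ?_
          rw [Int.cast_abs]
          refine (hsml i).trans ?_
          rw [hZ]
          exact Real.rpow_le_rpow_of_exponent_le hY1 hAB
      · rw [Set.Finite.mem_toFinset]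
        exact ⟨hadm, hpow, hbig, fun i => (hsml i).trans hexp⟩
    have h1 : (FewExponents k M (Y ^ (η / 4)) Y (Y ^ A)).ncard ≤ G.card := by
      rw [← Set.ncard_coe_finset]
      exact Set.ncard_le_ncard hsub (finite_toSet _)
    have h2 : (G.card : ℝ) ≤ U.card * (C₁ * Y ^ (η / 2)) := by
      have h3 : (G.card : ℝ) ≤ ∑ u ∈ U, (((hfin u).toFinset.card : ℕ) : ℝ) := by
        rw [hG]
        exact_mod_cast card_biUnion_le
      refine h3.trans ((sum_le_card_nsmul _ _ (C₁ * Y ^ (η / 2)) fun u _ => ?_).trans ?_)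
      · have h4 := (hFNA Y u hY).2
        rw [Set.ncard_eq_toFinset_card _ (hfin u)] at h4
        exact h4
      · rw [nsmul_eq_mul]
    have h3 : ((FewExponents k M (Y ^ (η / 4)) Y (Y ^ A)).ncard : ℝ) ≤ G.card := by
      exact_mod_cast h1
    calc ((FewExponents k M (Y ^ (η / 4)) Y (Y ^ A)).ncard : ℝ)
        ≤ U.card * (C₁ * Y ^ (η / 2)) := h3.trans h2
      _ ≤ (Y ^ (η / 4) * (8 * (C₂ * Y ^ (η / 24)) ^ 3)) * (C₁ * Y ^ (η / 2)) :=
          mul_le_mul_of_nonneg_right hUc (by positivity)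
      _ = 8 * C₂ ^ 3 * C₁ * (Y ^ (η / 4) * (Y ^ (η / 24)) ^ 3 * Y ^ (η / 2)) := by ring
      _ = 8 * C₂ ^ 3 * C₁ * Y ^ (7 * η / 8) := by
          rw [← Real.rpow_natCast (Y ^ (η / 24)) 3, ← Real.rpow_mul hY0.le,
            ← Real.rpow_add hY0, ← Real.rpow_add hY0]
          congr 2
          push_cast
          ring
      _ ≤ 8 * C₂ ^ 3 * C₁ * Y ^ η := by
          apply mul_le_mul_of_nonneg_left _ (by positivity)
          exact Real.rpow_le_rpow_of_exponent_le hY1 (by linarith)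
      _ ≤ ((2 * (N : ℝ) + 1) ^ 3 + 8 * C₂ ^ 3 * C₁) * Y ^ η := by
          apply mul_le_mul_of_nonneg_right _ (by positivity)
          have : 0 ≤ (2 * (N : ℝ) + 1) ^ 3 := by positivity
          linarith

end Pool.Agent.H17.TFX
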