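import Pool.Agent.H29.FX.Targets2
import Pool.Agent.H17.TFX.FNC

/-!
# (FNG) few exponents outside the primes dividing some small integer (MP_7ecdd4_nt)
-/

set_option autoImplicit false

open Finset

namespace Pool.Agent.H17.TFX

open Pool.Agent.H38.AE.Statement
open Pool.Agent.H29.FX

/-- (FNG) few exponents outside the primes dividing some `Q ≤ Y ^ θ`. -/
theorem pf_FNG (hFNA : T_FNA) (hRPR : T_RPR) (hSUN : T_SUN) : T_FNG := by
  classical
  intro k η hη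
  obtain ⟨M, c, C₁, hM, hc, hC₁, hFNA⟩ := hFNA k (η / 2) (by linarith)
  refine ⟨M, hM, fun A θ hθ => ?_⟩
  obtain ⟨Y₁, hY₁2, hY₁⟩ := fnc_grow A c hc
  obtain ⟨B, hB⟩ : ∃ B : ℝ, B = |A| + θ + 1 := ⟨_, rfl⟩
  have hA0 := abs_nonneg A
  have hB0 : 0 < B := by rw [hB]; linarith
  have hAB : A ≤ B := by rw [hB]; linarith [le_abs_self A]
  obtain ⟨C₂, hC₂, hSUN⟩ := hSUN (η / (24 * B)) (by positivity)
  obtain ⟨N, hN⟩ : ∃ N : ℕ, N = ⌈Y₁ ^ |A|⌉₊ := ⟨_, rfl⟩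
  refine ⟨(2 * (N : ℝ) + 1) ^ 3 + 8 * C₂ ^ 3 * C₁, by positivity, fun Y hY => ?_⟩
  have hY0 : 0 < Y := by linarith
  have hY1 : 1 ≤ Y := by linarith
  have hYη : 1 ≤ Y ^ (θ + η) := Real.one_le_rpow hY1 (by linarith)
  refine ⟨(fnc_box k M (Y ^ θ) Y (Y ^ A) ⌈Y ^ A⌉₊ (Nat.le_ceil _)).1, ?_⟩
  by_cases hlt : Y < Y₁
  · have h1 : Y ^ A ≤ N := by
      rw [hN]
      refine le_trans ?_ (Nat.le_ceil _)
      calc Y ^ A ≤ Y ^ |A| := Real.rpow_le_rpow_of_exponent_le hY1 (le_abs_self A)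
        _ ≤ Y₁ ^ |A| := Real.rpow_le_rpow hY0.le hlt.le hA0
    refine (fnc_box k M (Y ^ θ) Y (Y ^ A) N h1).2.trans ?_
    have h2 : 0 ≤ (2 * (N : ℝ) + 1) ^ 3 := by positivity
    have h3 : 0 ≤ 8 * C₂ ^ 3 * C₁ := by positivity
    nlinarith [mul_nonneg h2 (sub_nonneg.2 hYη),
      mul_nonneg h3 (by linarith : (0 : ℝ) ≤ Y ^ (θ + η))]
  · have hle : Y₁ ≤ Y := not_lt.1 hlt
    have hexp := hY₁ Y hle
    obtain ⟨Z, hZ⟩ : ∃ Z : ℝ, Z = Y ^ B := ⟨_, rfl⟩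
    have hZ1 : 1 ≤ Z := by rw [hZ]; exact Real.one_le_rpow hY1 hB0.le
    have hZε : Z ^ (η / (24 * B)) = Y ^ (η / 24) := by
      rw [hZ, ← Real.rpow_mul hY0.le]
      congr 1
      field_simp
    obtain ⟨R, hR⟩ : ∃ R : ℕ, R = ⌊Y ^ θ⌋₊ := ⟨_, rfl⟩
    have hRle : (R : ℝ) ≤ Y ^ θ := by rw [hR]; exact Nat.floor_le (by positivity)
    have hYZ : Y ^ θ ≤ Z := by
      rw [hZ]
      exact Real.rpow_le_rpow_of_exponent_le hY1 (by rw [hB]; linarith)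
    obtain ⟨U, hU⟩ : ∃ U : Finset (Fin 3 → ℤ), U = (Icc 1 R).biUnion (UQ Z) := ⟨_, rfl⟩
    have hSQ : ∀ Q ∈ Icc 1 R, ((SQ Z Q).card : ℝ) ≤ C₂ * Y ^ (η / 24) := by
      intro Q hQ
      rw [mem_Icc] at hQ
      have hQR : (Q : ℝ) ≤ R := by exact_mod_cast hQ.2
      have := hSUN Z Q hZ1 hQ.1 ((hQR.trans hRle).trans hYZ) (SQ Z Q) (by
        intro m hm
        rw [mem_SQ] at hm
        refine ⟨hm.1.1, ?_, hm.2⟩
        exact (Nat.cast_le.2 hm.1.2).trans (Nat.floor_le (by linarith)))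
      rwa [hZε] at this
    have hUc : (U.card : ℝ) ≤ Y ^ θ * (8 * (C₂ * Y ^ (η / 24)) ^ 3) := by
      have h1 : (U.card : ℝ) ≤ ∑ Q ∈ Icc 1 R, ((UQ Z Q).card : ℝ) := by
        rw [hU]
        exact_mod_cast card_biUnion_le
      refine h1.trans ((sum_le_card_nsmul _ _ _ fun Q hQ => card_UQ (hSQ Q hQ)).trans ?_)
      rw [nsmul_eq_mul, Nat.card_Icc, Nat.add_sub_cancel]
      exact mul_le_mul_of_nonneg_right hRle (by positivity)
    have hfin : ∀ u : Fin 3 → ℤ, (OfPowers k u M Y (Real.exp (Y ^ c))).Finite :=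
      fun u => (hFNA Y u hY).1
    obtain ⟨G, hG⟩ : ∃ G : Finset (Fin 3 → ℤ), G = U.biUnion fun u => (hfin u).toFinset :=
      ⟨_, rfl⟩
    have hsub : FewExponents k M (Y ^ θ) Y (Y ^ A) ⊆ (G : Set (Fin 3 → ℤ)) := by
      rintro x ⟨hadm, hrad, hbig, hsml, Q, hQ1, hQR, hcard⟩
      obtain ⟨u, hu, hpow⟩ := hRPR k Q Y x hadm hQ1 hrad hcard
      rw [mem_coe, hG, mem_biUnion]
      refine ⟨u, ?_, ?_⟩
      · rw [hU, mem_biUnion]
        refine ⟨Q, ?_, ?_⟩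
        · rw [mem_Icc, hR]
          exact ⟨hQ1, Nat.le_floor hQR⟩
        · unfold UQ
          rw [Fintype.mem_piFinset]
          intro i
          obtain ⟨h0, h1, h2⟩ := hu i
          refine mem_TQ h0 ?_ h2
          have h3 : ((|u i| : ℤ) : ℝ) ≤ ((|x i| : ℤ) : ℝ) := by exact_mod_cast h1
          refine h3.trans ?_
          rw [Int.cast_abs]
          refine (hsml i).trans ?_
          rw [hZ]
          exact Real.rpow_le_rpow_of_exponent_le hY1 hAB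
      · rw [Set.Finite.mem_toFinset]
        exact ⟨hadm, hpow, hbig, fun i => (hsml i).trans hexp⟩
    have h1 : (FewExponents k M (Y ^ θ) Y (Y ^ A)).ncard ≤ G.card := by
      rw [← Set.ncard_coe_finset]
      exact Set.ncard_le_ncard hsub (finite_toSet _)
    have h2 : (G.card : ℝ) ≤ U.card * (C₁ * Y ^ (η / 2)) := by
      have h3 : (G.card : ℝ) ≤ ∑ u ∈ U, (((hfin u).toFinset.card : ℕ) : ℝ) := by
        rw [hG]
        exact_mod_cast card_biUnion_le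
      refine h3.trans ((sum_le_card_nsmul _ _ (C₁ * Y ^ (η / 2)) fun u _ => ?_).trans ?_)
      · have h4 := (hFNA Y u hY).2
        rw [Set.ncard_eq_toFinset_card _ (hfin u)] at h4
        exact h4
      · rw [nsmul_eq_mul]
    have h3 : ((FewExponents k M (Y ^ θ) Y (Y ^ A)).ncard : ℝ) ≤ G.card := by
      exact_mod_cast h1
    calc ((FewExponents k M (Y ^ θ) Y (Y ^ A)).ncard : ℝ)
        ≤ U.card * (C₁ * Y ^ (η / 2)) := h3.trans h2
      _ ≤ (Y ^ θ * (8 * (C₂ * Y ^ (η / 24)) ^ 3)) * (C₁ * Y ^ (η / 2)) :=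
          mul_le_mul_of_nonneg_right hUc (by positivity)
      _ = 8 * C₂ ^ 3 * C₁ * (Y ^ θ * (Y ^ (η / 24)) ^ 3 * Y ^ (η / 2)) := by ring
      _ = 8 * C₂ ^ 3 * C₁ * Y ^ (θ + 5 * η / 8) := by
          rw [← Real.rpow_natCast (Y ^ (η / 24)) 3, ← Real.rpow_mul hY0.le,
            ← Real.rpow_add hY0, ← Real.rpow_add hY0]
          congr 2
          push_cast
          ring
      _ ≤ 8 * C₂ ^ 3 * C₁ * Y ^ (θ + η) := by
          apply mul_le_mul_of_nonneg_left _ (by positivity)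
          exact Real.rpow_le_rpow_of_exponent_le hY1 (by linarith)
      _ ≤ ((2 * (N : ℝ) + 1) ^ 3 + 8 * C₂ ^ 3 * C₁) * Y ^ (θ + η) := by
          apply mul_le_mul_of_nonneg_right _ (by positivity)
          have : 0 ≤ (2 * (N : ℝ) + 1) ^ 3 := by positivity
          linarith

end Pool.Agent.H17.TFX
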