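import Pool.Agent.H29.FX.Targets

/-!
# (MAS) two relations between three coprime integers (MP_7ecdd4_nt)
-/

set_option autoImplicit false

open Finset

namespace Pool.Agent.H17.TFX

open Pool.Agent.H29.FX

theorem mas_core (x y z a b c K : ℤ) (h1 : x + y + z = 0) (hc : IsCoprime x y)
    (h2 : x * a + y * b + z * c = 0) (hK : 2 * K < |x|) (hb : |b| ≤ K) (hc' : |c| ≤ K) :
    a = c ∧ b = c := by
  have h3 : x * (a - c) + y * (b - c) = 0 := by
    have hz : z = -x - y := by linarith
    rw [hz] at h2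
    linarith
  have h4 : x ∣ y * (b - c) := ⟨-(a - c), by linarith⟩
  have h5 : x ∣ b - c := hc.dvd_of_dvd_mul_left h4
  have h6 : |b - c| < |x| := by
    have := abs_sub b c
    linarith
  have h7 : b - c = 0 := by
    rcases abs_cases x with h | h
    · exact Int.eq_zero_of_abs_lt_dvd h5 (by linarith)
    · exact Int.eq_zero_of_abs_lt_dvd ((neg_dvd).2 h5) (by linarith)
  have hK0 : 0 ≤ K := (abs_nonneg b).trans hb
  have hx : x ≠ 0 := by
    rintro rfl
    rw [abs_zero] at hK
    linarith
  rw [h7, mul_zero, add_zero] at h3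
  have h8 := (mul_eq_zero.1 h3).resolve_left hx
  exact ⟨by linarith, by linarith⟩

/-- (MAS) two relations between three coprime integers. -/
theorem pf_MAS : T_MAS := by
  intro x l K h1 hc h2 h3 h4
  rw [Fin.sum_univ_three] at h1 h2
  have key : l 0 = l 1 ∧ l 1 = l 2 := by
    obtain ⟨a, ha⟩ := h3
    fin_cases a
    · obtain ⟨e1, e2⟩ := mas_core (x 0) (x 1) (x 2) (l 0) (l 1) (l 2) K h1
        (hc 0 1 (by decide)) h2 ha (h4 1) (h4 2)
      exact ⟨e1.trans e2.symm, e2⟩
    · obtain ⟨e1, e2⟩ := mas_core (x 1) (x 2) (x 0) (l 1) (l 2) (l 0) K (by linarith)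
        (hc 1 2 (by decide)) (by linarith) ha (h4 2) (h4 0)
      exact ⟨e1.symm, e1.trans e2.symm⟩
    · obtain ⟨e1, e2⟩ := mas_core (x 2) (x 0) (x 1) (l 2) (l 0) (l 1) K (by linarith)
        (hc 2 0 (by decide)) (by linarith) ha (h4 0) (h4 1)
      exact ⟨e2, e1.symm⟩
  intro a b
  fin_cases a <;> fin_cases b <;> simp only [Fin.zero_eta, Fin.mk_one, Fin.reduceFinMk] <;>
    first
      | rfl
      | exact key.1
      | exact key.1.symm
      | exact key.2
      | exact key.2.symm
      | exact key.1.trans key.2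
      | exact (key.1.trans key.2).symm

end Pool.Agent.H17.TFX
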